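import Pool.Agent.Lib.MP_d19698_pr.Final

/-!
# MP_d19698_pr, full positive answer: the critical exponential metric induces the Euclidean topology

Let `d ≥ 3` (the proof works for `d ≥ 2`), let `𝔎` be a smooth radial nonnegative kernel supported in `B_{r0}(0)` with `∫ 𝔎² = 1` (`IsKernel`), let `W` be a
space-time white noise on `ℝ^d × (0,∞)` (`IsWhiteNoise`) and let `h n` (`n ≥ 1`) be smooth modifications of
`h_n(x) = ∫ 𝔎((y-x)/t) t^{-(d+1)/2} 1_{2^{-n} < t ≤ 1} W(dy,dt)` (`IsFieldOf`). Let `ξ > 0`, let `lam n` be medians of `D_n(0,e_1;B_2(0))` (`IsMedianSeq`) and suppose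
`lam n = 2^{-(1-ξ√(2d))n + o(n)}`, that is `Q(ξ) = √(2d)` (`HasExponent`). Let `Dn n` be `D_n` as a random element of `C(ℝ^d × ℝ^d, ℝ)` (`IsMetricSeq`). If
`(lam n)⁻¹ D_n` converges in distribution to `Dt` along some `n_k → ∞`, in the topology of uniform convergence on compact sets (`IsSubseqLimit`), then `Dt` is almost
surely a metric on `ℝ^d` which induces the Euclidean topology (`IsMetricInducingTop`).
-/

open MeasureTheory ProbabilityTheory Filter Topology Set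

namespace Pool.Agent.Results.MP_d19698_pr.CriticalMetric

open _root_.MP_d19698_pr

theorem result (d : ℕ) [NeZero d] (hd : 3 ≤ d) (𝔎 : Rd d → ℝ) (r0 : ℝ) (hK : IsKernel 𝔎 r0)
    {Ω : Type*} [MeasurableSpace Ω] (P : Measure Ω) [IsProbabilityMeasure P] (W : (Rd d × ℝ → ℝ) → Ω → ℝ) (hW : IsWhiteNoise P W)
    (h : ℕ → Ω → Rd d → ℝ) (hh : IsFieldOf P W 𝔎 h)
    (ξ : ℝ) (hξ : 0 < ξ) (lam : ℕ → ℝ) (hlam : IsMedianSeq P ξ h lam) (hQ : HasExponent ξ lam (Real.sqrt (2 * d)))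
    (Dn : ℕ → Ω → C(Rd d × Rd d, ℝ)) (hDn : IsMetricSeq ξ h Dn)
    [MeasurableSpace C(Rd d × Rd d, ℝ)] [BorelSpace C(Rd d × Rd d, ℝ)]
    {Ω' : Type*} [MeasurableSpace Ω'] (P' : Measure Ω') [IsProbabilityMeasure P'] (Dt : Ω' → C(Rd d × Rd d, ℝ))
    (hconv : IsSubseqLimit P P' (fun n ω => (lam n)⁻¹ • Dn n ω) Dt) :
    ∀ᵐ ω ∂P', IsMetricInducingTop (Dt ω) :=
  _root_.MP_d19698_pr.main (by omega) hK hW hh hξ hlam hQ hDn hconv

end Pool.Agent.Results.MP_d19698_pr.CriticalMetric
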